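import Pool.Agent.H6.NB.Targets2

/-!
# NB module INI2: a good seed at the beginning
-/

set_option autoImplicit false

namespace Pool.Agent.H33.NB.INI2

open Pool.Agent.H6.NB

/-- The seed: the strings `false :: t` such that the first half of `t` is all `false`. -/
def seed : List Bool → Bool
  | [] => false
  | true :: _ => false
  | false :: t => (t.take (t.length / 2)).all fun b => !b

theorem seed_bse (u v : List Bool) (h : v.length = u.length) :
    seed (bse u v) = u.all fun b => !b := by
  have h1 : (u ++ v).length / 2 = u.length := by
    rw [List.length_append]
    omega
  show (((u ++ v).take ((u ++ v).length / 2)).all fun b => !b) = _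
  rw [h1, List.take_left]

theorem t_ini2 (h1 : T_INI) : T_INI2 := by
  refine ⟨seed, fun s => ?_, fun n => ?_⟩
  · exact h1 s
  · refine ⟨List.replicate n false, List.length_replicate, fun v hv => ?_, fun u' hu' h => ?_⟩
    · rw [seed_bse _ _ (by rw [hv, List.length_replicate])]
      simp
    · have h2 := h (List.replicate n false) List.length_replicate
      rw [seed_bse _ _ (by rw [hu', List.length_replicate])] at h2
      rw [List.eq_replicate_iff]
      refine ⟨hu', fun b hb => ?_⟩
      have := List.all_eq_true.1 h2 b hb
      simpa using this

end Pool.Agent.H33.NB.INI2
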